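import Mathlib
import Pool.Agent.Run7.h4.VS.Defs

/-!
# Base links in frames are close to one centre element
-/

set_option autoImplicit false

open Matrix
open Run7.h4.YM Run7.h4.VS

namespace Run7.h182.VS

noncomputable section

variable {N l : ℕ} [NeZero N] [NeZero l]

omit [NeZero N] in
theorem dd_mul_inv_one (a b : SU N) : dd (a * b⁻¹) 1 = dd a b := by
  have h := dd_mul_right (a * b⁻¹) 1 b
  rw [inv_mul_cancel_right, one_mul] at h
  exact h.symm

omit [NeZero N] in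
/-- the link relation in frames -/
theorem frame_rel {u u' a a' x g gp g' gp' : SU N} {e κ : ℝ}
    (hx : dd (g⁻¹ * a * gp) x ≤ e) (hx' : dd (g'⁻¹ * a' * gp') x ≤ e)
    (h : dd (u * a' * u'⁻¹ * a⁻¹) 1 ≤ κ) :
    dd (g⁻¹ * u * g' * x) (x * (gp⁻¹ * u' * gp')) ≤ 2 * e + κ := by
  have h1 : dd (u * a') (a * u') ≤ κ := by
    have e1 : u * a' * u'⁻¹ * a⁻¹ = (u * a') * (a * u')⁻¹ := by group
    rw [e1, dd_mul_inv_one] at h
    exact h
  have h2 : dd (g⁻¹ * u * g' * x) (g⁻¹ * u * g' * (g'⁻¹ * a' * gp')) ≤ e := by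
    rw [dd_mul_left, dd_comm]; exact hx'
  have h3 : dd (g⁻¹ * u * g' * (g'⁻¹ * a' * gp')) (g⁻¹ * a * gp * (gp⁻¹ * u' * gp')) ≤ κ := by
    have e1 : g⁻¹ * u * g' * (g'⁻¹ * a' * gp') = g⁻¹ * ((u * a') * gp') := by group
    have e2 : g⁻¹ * a * gp * (gp⁻¹ * u' * gp') = g⁻¹ * ((a * u') * gp') := by group
    rw [e1, e2, dd_mul_left, dd_mul_right]
    exact h1
  have h4 : dd (g⁻¹ * a * gp * (gp⁻¹ * u' * gp')) (x * (gp⁻¹ * u' * gp')) ≤ e := by
    rw [dd_mul_right]; exact hx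
  have h5 := dd_triangle (g⁻¹ * u * g' * x) (g⁻¹ * u * g' * (g'⁻¹ * a' * gp'))
    (x * (gp⁻¹ * u' * gp'))
  have h6 := dd_triangle (g⁻¹ * u * g' * (g'⁻¹ * a' * gp')) (g⁻¹ * a * gp * (gp⁻¹ * u' * gp'))
    (x * (gp⁻¹ * u' * gp'))
  linarith

omit [NeZero N] in
theorem dd_of_aw {g : SU N} {E : ℝ} (h : aw 1 g ≤ E) : dd g 1 ≤ Real.sqrt (2 * E) := by
  rw [aw_one_eq] at h
  refine Real.le_sqrt_of_sq_le ?_
  linarith

theorem KL_le (s s' : FC N l) (u : Fib l → SU N) (y : Fib l) :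
    dd (u y * s'.1 y * (u (y + (1, 0)))⁻¹ * (s.1 y)⁻¹) 1 ≤ Real.sqrt (2 * KL s u s') ∧
    dd (u y * s'.2 y * (u (y + (0, 1)))⁻¹ * (s.2 y)⁻¹) 1 ≤ Real.sqrt (2 * KL s u s') := by
  have h : aw 1 (u y * s'.1 y * (u (y + (1, 0)))⁻¹ * (s.1 y)⁻¹) +
      aw 1 (u y * s'.2 y * (u (y + (0, 1)))⁻¹ * (s.2 y)⁻¹) ≤ KL s u s' := by
    unfold KL
    exact Finset.single_le_sum (f := fun y : Fib l =>
      aw 1 (u y * s'.1 y * (u (y + (1, 0)))⁻¹ * (s.1 y)⁻¹) +
      aw 1 (u y * s'.2 y * (u (y + (0, 1)))⁻¹ * (s.2 y)⁻¹))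
      (fun y _ => add_nonneg (aw_one_nonneg _) (aw_one_nonneg _)) (Finset.mem_univ y)
  have h1 := aw_one_nonneg (u y * s'.1 y * (u (y + (1, 0)))⁻¹ * (s.1 y)⁻¹)
  have h2 := aw_one_nonneg (u y * s'.2 y * (u (y + (0, 1)))⁻¹ * (s.2 y)⁻¹)
  exact ⟨dd_of_aw (by linarith), dd_of_aw (by linarith)⟩

omit [NeZero N] in
/-- transport along a closed line of a function which is almost constant away from `0` and almost
intertwined with `X` at `0` -/
theorem line_move {f : ZMod l → SU N} {X : SU N} {η : ℝ} (hη : 0 ≤ η)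
    (h0 : dd (f 0 * X) (X * f 1) ≤ η) (h : ∀ a : ZMod l, a ≠ 0 → dd (f a) (f (a + 1)) ≤ η) :
    dd (f 1 * X) (X * f 1) ≤ (l + 1) * η ∧ ∀ a, dd (f 1) (f a) ≤ l * η := by
  have hj : ∀ j : ℕ, j < l → dd (f 1) (f ((1 + j : ℕ) : ZMod l)) ≤ j * η := by
    intro j
    induction j with
    | zero => intro _; simp [dd_self]
    | succ j ih =>
      intro hjl
      have h1 := ih (by omega)
      have h2 := h ((1 + j : ℕ) : ZMod l) (by
        intro h0
        have h3 : (((1 + j : ℕ) : ZMod l)).val = 0 := by rw [h0]; exact ZMod.val_zero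
        rw [ZMod.val_cast_of_lt (by omega)] at h3
        omega)
      have h3 := dd_triangle (f 1) (f ((1 + j : ℕ) : ZMod l)) (f ((1 + (j + 1) : ℕ) : ZMod l))
      have e : (((1 + j : ℕ) : ZMod l) + 1) = ((1 + (j + 1) : ℕ) : ZMod l) := by push_cast; ring
      rw [e] at h2
      push_cast at h1 h2 h3 ⊢
      linarith
  have hall : ∀ a, dd (f 1) (f a) ≤ l * η := by
    intro a
    have hl := NeZero.pos l
    obtain ⟨j, hjl, hj'⟩ : ∃ j : ℕ, j < l ∧ ((1 + j : ℕ) : ZMod l) = a := by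
      refine ⟨(a - 1).val, ZMod.val_lt _, ?_⟩
      rw [Nat.cast_add, ZMod.natCast_zmod_val]
      push_cast
      ring
    have h1 := hj j hjl
    rw [hj'] at h1
    have h2 : (j : ℝ) * η ≤ l * η := mul_le_mul_of_nonneg_right (by exact_mod_cast hjl.le) hη
    linarith
  refine ⟨?_, hall⟩
  have h1 := hall 0
  have h2 := dd_triangle (f 1 * X) (f 0 * X) (X * f 1)
  rw [dd_mul_right] at h2
  linarith

/-- LK from A2 -/
theorem tLK (hA2 : StA2) : StLK := by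
  intro N k l _ _ hζ P0 Q0 hstd
  obtain ⟨C, hC, hW⟩ := hA2 N k hζ P0 Q0 hstd
  refine ⟨4 * (2 * C * (l + 1) + 2 * l), by positivity, ?_⟩
  intro s s' u g g' e hs hs'
  have he : 0 ≤ e := (dd_nonneg _ _).trans (hs 0).1
  set κ := Real.sqrt (2 * KL s u s') with hκ
  have hκ0 : 0 ≤ κ := Real.sqrt_nonneg _
  set w : Fib l → SU N := fun y => (g y)⁻¹ * u y * g' y with hw
  set η := 2 * e + κ with hη
  have hη0 : 0 ≤ η := by positivity
  have h1 : ∀ y : Fib l, dd (w y * (vacF (l := l) P0 Q0).1 y)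
      ((vacF (l := l) P0 Q0).1 y * w (y + (1, 0))) ≤ η := fun y =>
    frame_rel (hs y).1 (hs' y).1 (KL_le s s' u y).1
  have h2 : ∀ y : Fib l, dd (w y * (vacF (l := l) P0 Q0).2 y)
      ((vacF (l := l) P0 Q0).2 y * w (y + (0, 1))) ≤ η := fun y =>
    frame_rel (hs y).2 (hs' y).2 (KL_le s s' u y).2
  have hr : ∀ b : ZMod l, dd (w (1, b) * P0) (P0 * w (1, b)) ≤ (l + 1) * η ∧
      ∀ a, dd (w (1, b)) (w (a, b)) ≤ l * η := by
    intro b
    refine line_move (f := fun a => w (a, b)) hη0 ?_ ?_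
    · have := h1 (0, b)
      simpa [vacF] using this
    · intro a ha
      have := h1 (a, b)
      simpa [vacF, ha] using this
  have hc : ∀ a : ZMod l, dd (w (a, 1) * Q0) (Q0 * w (a, 1)) ≤ (l + 1) * η ∧
      ∀ b, dd (w (a, 1)) (w (a, b)) ≤ l * η := by
    intro a
    refine line_move (f := fun b => w (a, b)) hη0 ?_ ?_
    · have := h2 (a, 0)
      simpa [vacF] using this
    · intro b hb
      have := h2 (a, b)
      simpa [vacF, hb] using this
  obtain ⟨i, hi⟩ := hW (w (1, 1))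
  refine ⟨i, fun y => ?_⟩
  obtain ⟨a, b⟩ := y
  have h3 := (hr 1).1
  have h4 := (hc 1).1
  have h5 := (hc 1).2 b
  have h6 := (hr b).2 a
  have h7 := dd_triangle (w (a, b)) (w (1, b)) (cz hζ i)
  have h8 := dd_triangle (w (1, b)) (w (1, 1)) (cz hζ i)
  rw [dd_comm (w (a, b)) (w (1, b))] at h7
  rw [dd_comm (w (1, b)) (w (1, 1))] at h8
  have h9 : dd (w (a, b)) (cz hζ i) ≤ (2 * C * (l + 1) + 2 * l) * η := by
    have : C * (dd (w (1, 1) * P0) (P0 * w (1, 1)) + dd (w (1, 1) * Q0) (Q0 * w (1, 1))) ≤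
        C * ((l + 1) * η + (l + 1) * η) := mul_le_mul_of_nonneg_left (add_le_add h3 h4) hC.le
    nlinarith
  have h10 : κ ≤ 2 * Real.sqrt (KL s u s') := by
    rw [hκ, Real.sqrt_mul (by norm_num)]
    have : Real.sqrt 2 ≤ 2 := by
      rw [Real.sqrt_le_left (by norm_num)]; norm_num
    exact mul_le_mul_of_nonneg_right this (Real.sqrt_nonneg _)
  have h11 : η ≤ 4 * (e + Real.sqrt (KL s u s')) := by
    have := Real.sqrt_nonneg (KL s u s')
    rw [hη]; linarith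
  refine h9.trans ?_
  have hK : (0 : ℝ) ≤ 2 * C * (l + 1) + 2 * l := by positivity
  calc (2 * C * (l + 1) + 2 * l) * η ≤ (2 * C * (l + 1) + 2 * l) *
      (4 * (e + Real.sqrt (KL s u s'))) := mul_le_mul_of_nonneg_left h11 hK
    _ = _ := by ring

end

end Run7.h182.VS
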