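import Mathlib
import Pool.Agent.Run7.h182.VS.LK

/-!
# Frames of an almost flat fibre, with linear errors
-/

set_option autoImplicit false

open Matrix
open Run7.h4.YM Run7.h4.VS

namespace Run7.h182.VS

noncomputable section

variable {N l : ℕ} [NeZero N] [NeZero l] {k : ℕ} (hζ : IsPrimitiveRoot (om N k) N)

/-- defect of a plaquette of the fibre -/
theorem VL_le (s : FC N l) (y : Fib l) :
    dd (tz hζ y * (s.1 y * s.2 (y + (1, 0)))) (s.2 y * s.1 (y + (0, 1))) ≤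
      Real.sqrt (2 * VL k s) := by
  have h : aw (twf N k y) (s.1 y * s.2 (y + (1, 0)) * (s.1 (y + (0, 1)))⁻¹ * (s.2 y)⁻¹) ≤
      VL k s := by
    unfold VL
    exact Finset.single_le_sum (f := fun y : Fib l =>
      aw (twf N k y) (s.1 y * s.2 (y + (1, 0)) * (s.1 (y + (0, 1)))⁻¹ * (s.2 y)⁻¹))
      (fun y _ => aw_twf_nonneg hζ y _) (Finset.mem_univ y)
  rw [aw_twf hζ] at h
  have h1 := dd_of_aw h
  have e : tz hζ y * (s.1 y * s.2 (y + (1, 0)) * (s.1 (y + (0, 1)))⁻¹ * (s.2 y)⁻¹) =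
      (tz hζ y * (s.1 y * s.2 (y + (1, 0)))) * (s.2 y * s.1 (y + (0, 1)))⁻¹ := by group
  rw [e, dd_mul_inv_one] at h1
  exact h1

/-- the product of the first links of a row -/
def RR (s : FC N l) (b : ZMod l) (j : ℕ) : SU N := hp (fun a => s.1 ((a : ZMod l), b)) j

/-- the product of the second links of the column `0` -/
def CC (s : FC N l) (j : ℕ) : SU N := hp (fun b => s.2 (0, (b : ZMod l))) j

/-- the centre factor of a row -/
def ZR (b : ZMod l) (j : ℕ) : SU N := hp (fun a => tz hζ ((a : ZMod l), b)) j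

/-- the centre factor of the column -/
def ZC (l : ℕ) (j : ℕ) : SU N :=
  hp (fun b : ℕ => if (b : ZMod l) = 0 then cz hζ 1 else (1 : SU N)) j

theorem ZC_comm (j : ℕ) (g : SU N) : ZC hζ l j * g = g * ZC hζ l j := by
  unfold ZC
  induction j with
  | zero => simp
  | succ j ih =>
    rw [hp_succ, mul_assoc]
    have hz : (if (j : ZMod l) = 0 then cz hζ 1 else (1 : SU N)) * g =
        g * (if (j : ZMod l) = 0 then cz hζ 1 else (1 : SU N)) := by
      split_ifs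
      · exact cz_comm hζ 1 g
      · rw [one_mul, mul_one]
    rw [hz, ← mul_assoc, ih, mul_assoc]

theorem ZR_comm (b : ZMod l) (j : ℕ) (g : SU N) : ZR hζ b j * g = g * ZR hζ b j := by
  unfold ZR
  induction j with
  | zero => simp
  | succ j ih => rw [hp_succ, mul_assoc, tz_comm, ← mul_assoc, ih, mul_assoc]

/-- approximate transport of a column through a row -/
theorem row_move' {s : FC N l} {ε : ℝ}
    (h : ∀ y, dd (tz hζ y * (s.1 y * s.2 (y + (1, 0)))) (s.2 y * s.1 (y + (0, 1))) ≤ ε)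
    (b : ZMod l) (j : ℕ) :
    dd (ZR hζ b j * (RR s b j * s.2 ((j : ZMod l), b))) (s.2 (0, b) * RR s (b + 1) j) ≤ j * ε := by
  induction j with
  | zero => simp [ZR, RR, dd_self]
  | succ j ih =>
    have h1 := h ((j : ZMod l), b)
    have e1 : ((j : ZMod l), b) + (1, 0) = (((j + 1 : ℕ) : ZMod l), b) := by simp
    have e2 : ((j : ZMod l), b) + (0, 1) = ((j : ZMod l), b + 1) := by simp
    rw [e1, e2] at h1
    have s1 : ZR hζ b (j + 1) = ZR hζ b j * tz hζ ((j : ZMod l), b) := hp_succ _ _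
    have s2 : RR s b (j + 1) = RR s b j * s.1 ((j : ZMod l), b) := hp_succ _ _
    have s3 : RR s (b + 1) (j + 1) = RR s (b + 1) j * s.1 ((j : ZMod l), b + 1) := hp_succ _ _
    rw [s1, s2, s3]
    have e3 : ZR hζ b j * tz hζ ((j : ZMod l), b) * (RR s b j * s.1 ((j : ZMod l), b) *
        s.2 (((j + 1 : ℕ) : ZMod l), b)) = ZR hζ b j * (RR s b j * (tz hζ ((j : ZMod l), b) *
        (s.1 ((j : ZMod l), b) * s.2 (((j + 1 : ℕ) : ZMod l), b)))) := by
      rw [mul_assoc (ZR hζ b j), mul_assoc (RR s b j), ← mul_assoc (tz hζ ((j : ZMod l), b)),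
        tz_comm, mul_assoc (RR s b j)]
    rw [e3]
    have h2 := dd_triangle (ZR hζ b j * (RR s b j * (tz hζ ((j : ZMod l), b) *
        (s.1 ((j : ZMod l), b) * s.2 (((j + 1 : ℕ) : ZMod l), b)))))
      (ZR hζ b j * (RR s b j * (s.2 ((j : ZMod l), b) * s.1 ((j : ZMod l), b + 1))))
      (s.2 (0, b) * (RR s (b + 1) j * s.1 ((j : ZMod l), b + 1)))
    rw [dd_mul_left, dd_mul_left] at h2
    have e4 : ZR hζ b j * (RR s b j * (s.2 ((j : ZMod l), b) * s.1 ((j : ZMod l), b + 1))) =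
        ZR hζ b j * (RR s b j * s.2 ((j : ZMod l), b)) * s.1 ((j : ZMod l), b + 1) := by
      simp only [mul_assoc]
    rw [e4, ← mul_assoc (s.2 (0, b)), dd_mul_right] at h2
    rw [← mul_assoc (s.2 (0, b))]
    have e5 : ((j + 1 : ℕ) : ℝ) = j + 1 := by push_cast; ring
    rw [e5]
    linarith

theorem ZR_l (b : ZMod l) : ZR hζ b l = if b = 0 then cz hζ 1 else 1 := hp_tz hζ b

/-- approximate transport of a row through the column -/
theorem col_move' {s : FC N l} {ε : ℝ}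
    (h : ∀ y, dd (tz hζ y * (s.1 y * s.2 (y + (1, 0)))) (s.2 y * s.1 (y + (0, 1))) ≤ ε) (j : ℕ) :
    dd (ZC hζ l j * (RR s 0 l * CC s j)) (CC s j * RR s (j : ZMod l) l) ≤ j * (l * ε) := by
  have hrow : ∀ b : ZMod l, dd ((if b = 0 then cz hζ 1 else (1 : SU N)) * (RR s b l * s.2 (0, b)))
      (s.2 (0, b) * RR s (b + 1) l) ≤ l * ε := by
    intro b
    have := row_move' hζ h b l
    rw [ZR_l, ZMod.natCast_self] at this
    exact this
  induction j with
  | zero => simp [ZC, CC, dd_self]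
  | succ j ih =>
    have hr := hrow (j : ZMod l)
    have hzc : ∀ g : SU N, (if (j : ZMod l) = 0 then cz hζ 1 else (1 : SU N)) * g =
        g * (if (j : ZMod l) = 0 then cz hζ 1 else (1 : SU N)) := by
      intro g
      split_ifs
      · exact cz_comm hζ 1 g
      · rw [one_mul, mul_one]
    have s1 : ZC hζ l (j + 1) = ZC hζ l j * (if (j : ZMod l) = 0 then cz hζ 1 else (1 : SU N)) :=
      hp_succ _ _
    have s2 : CC s (j + 1) = CC s j * s.2 (0, (j : ZMod l)) := hp_succ _ _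
    have e : ((j + 1 : ℕ) : ZMod l) = (j : ZMod l) + 1 := by push_cast; rfl
    rw [s1, s2, e]
    set z := (if (j : ZMod l) = 0 then cz hζ 1 else (1 : SU N)) with hz
    have e1 : ZC hζ l j * z * (RR s 0 l * (CC s j * s.2 (0, (j : ZMod l)))) =
        ZC hζ l j * (RR s 0 l * CC s j) * (z * s.2 (0, (j : ZMod l))) := by
      rw [mul_assoc (ZC hζ l j), hzc, hzc]; simp only [mul_assoc]
    have e2 : CC s j * RR s (j : ZMod l) l * (z * s.2 (0, (j : ZMod l))) =
        CC s j * (z * (RR s (j : ZMod l) l * s.2 (0, (j : ZMod l)))) := by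
      rw [hzc, hzc]; simp only [mul_assoc]
    have e3 : CC s j * s.2 (0, (j : ZMod l)) * RR s ((j : ZMod l) + 1) l =
        CC s j * (s.2 (0, (j : ZMod l)) * RR s ((j : ZMod l) + 1) l) := by simp only [mul_assoc]
    rw [e1, e3]
    have h2 := dd_triangle (ZC hζ l j * (RR s 0 l * CC s j) * (z * s.2 (0, (j : ZMod l))))
      (CC s j * RR s (j : ZMod l) l * (z * s.2 (0, (j : ZMod l))))
      (CC s j * (s.2 (0, (j : ZMod l)) * RR s ((j : ZMod l) + 1) l))
    rw [dd_mul_right] at h2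
    rw [e2, dd_mul_left] at h2
    push_cast
    linarith

theorem ZC_pos {j : ℕ} (hj : 0 < j) (hjl : j ≤ l) : ZC hζ l j = cz hζ 1 := hp_row hζ j hj hjl

theorem ZR_val {j : ℕ} (b : ZMod l) (hjl : j ≤ l) :
    ZR hζ b j = if b = 0 ∧ 0 < j then cz hζ 1 else 1 := by
  unfold ZR
  by_cases hb : b = 0
  · subst hb
    rcases Nat.eq_zero_or_pos j with h | h
    · subst h; simp
    · rw [if_pos ⟨rfl, h⟩]
      have := hp_row hζ j h hjl
      rw [← this]
      refine hp_congr fun i _ => ?_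
      unfold tz
      by_cases hi : (i : ZMod l) = 0
      · rw [if_pos (by rw [hi]; rfl), if_pos hi]
      · rw [if_neg (fun h0 => hi (congrArg Prod.fst h0)), if_neg hi]
  · rw [if_neg (fun h => hb h.1)]
    have h1 : hp (fun a : ℕ => tz hζ ((a : ZMod l), b)) j = hp (fun _ => (1 : SU N)) j := by
      refine hp_congr fun i _ => ?_
      unfold tz
      rw [if_neg]
      intro h
      exact hb (congrArg Prod.snd h)
    have h6 : ∀ j, hp (fun _ => (1 : SU N)) j = 1 := by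
      intro j
      induction j with
      | zero => rfl
      | succ j ih => rw [hp_succ, ih, one_mul]
    rw [h1, h6]

/-- the frame along the column -/
def gc (s : FC N l) (g0 Q0 : SU N) (b : ℕ) : SU N := (CC s b)⁻¹ * g0 * (if b = 0 then 1 else Q0)

/-- the frames -/
def gg (s : FC N l) (g0 P0 Q0 : SU N) (y : Fib l) : SU N :=
  (RR s y.2 y.1.val)⁻¹ * gc s g0 Q0 y.2.val * (if y.1 = 0 then 1 else P0)

variable {P0 Q0 : SU N} (hrel : (Q0 * P0).1 = om N k • (P0 * Q0).1)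

include hrel in
theorem rel_cz : cz hζ 1 * (P0 * Q0) = Q0 * P0 := by
  apply Subtype.ext
  rw [hrel, coe_mul' (cz hζ 1), cz_val, pow_one, smul_mul_assoc, one_mul]

include hrel in
/-- holonomies of the rows in frames -/
theorem row_hol {s : FC N l} {ε θ : ℝ} {g0 : SU N}
    (h : ∀ y, dd (tz hζ y * (s.1 y * s.2 (y + (1, 0)))) (s.2 y * s.1 (y + (0, 1))) ≤ ε)
    (hP : dd (g0⁻¹ * PL s * g0) P0 ≤ θ) {b : ℕ} (hb : b < l) :
    dd ((gc s g0 Q0 b)⁻¹ * RR s (b : ZMod l) l * gc s g0 Q0 b) P0 ≤ b * (l * ε) + θ := by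
  set q : SU N := if b = 0 then 1 else Q0 with hq
  have hg : gc s g0 Q0 b = (CC s b)⁻¹ * g0 * q := rfl
  have h1 := col_move' hζ h b
  set Z := ZC hζ l b with hZ
  have hz : ∀ g, Z * g = g * Z := ZC_comm hζ b
  have hPR : PL s = RR s 0 l := rfl
  rw [hPR] at hP
  have e1 : (gc s g0 Q0 b)⁻¹ * RR s (b : ZMod l) l * gc s g0 Q0 b =
      (q⁻¹ * g0⁻¹) * (CC s b * RR s (b : ZMod l) l) * gc s g0 Q0 b := by
    rw [hg]; group
  have e2 : (q⁻¹ * g0⁻¹) * (Z * (RR s 0 l * CC s b)) * gc s g0 Q0 b =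
      Z * (q⁻¹ * (g0⁻¹ * RR s 0 l * g0) * q) := by
    have : (q⁻¹ * g0⁻¹) * (Z * (RR s 0 l * CC s b)) * gc s g0 Q0 b =
        (q⁻¹ * g0⁻¹) * (Z * (RR s 0 l * CC s b)) * ((CC s b)⁻¹ * g0 * q) := by rw [hg]
    rw [this, ← mul_assoc (q⁻¹ * g0⁻¹), ← hz]
    group
  have e3 : Z * (q⁻¹ * P0 * q) = P0 := by
    rw [hZ, hq]
    by_cases h0 : b = 0
    · subst h0; simp [ZC]
    · rw [if_neg h0, ZC_pos hζ (Nat.pos_of_ne_zero h0) hb.le]
      have e4 := rel_cz hζ hrel
      have e5 : cz hζ 1 * (Q0⁻¹ * P0 * Q0) = Q0⁻¹ * (cz hζ 1 * (P0 * Q0)) := by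
        rw [← mul_assoc Q0⁻¹, ← cz_comm hζ 1 Q0⁻¹]; simp only [mul_assoc]
      rw [e5, e4]; group
  have h2 : dd ((gc s g0 Q0 b)⁻¹ * RR s (b : ZMod l) l * gc s g0 Q0 b)
      (Z * (q⁻¹ * (g0⁻¹ * RR s 0 l * g0) * q)) ≤ b * (l * ε) := by
    rw [e1, ← e2, dd_mul_right, dd_mul_left, dd_comm]
    exact h1
  have h3 : dd (Z * (q⁻¹ * (g0⁻¹ * RR s 0 l * g0) * q)) (Z * (q⁻¹ * P0 * q)) ≤ θ := by
    rw [dd_mul_left, dd_mul_right, dd_mul_left]
    exact hP
  rw [e3] at h3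
  have h4 := dd_triangle ((gc s g0 Q0 b)⁻¹ * RR s (b : ZMod l) l * gc s g0 Q0 b)
    (Z * (q⁻¹ * (g0⁻¹ * RR s 0 l * g0) * q)) P0
  linarith

/-- the links of the column in frames -/
theorem col_link {s : FC N l} {θ : ℝ} {g0 : SU N} (hθ : 0 ≤ θ)
    (hQ : dd (g0⁻¹ * QL s * g0) Q0 ≤ θ) (b : ZMod l) :
    dd ((gc s g0 Q0 b.val)⁻¹ * s.2 (0, b) * gc s g0 Q0 (b + 1).val) (if b = 0 then Q0 else 1) ≤
      θ := by
  have hQC : QL s = CC s l := rfl
  rw [hQC] at hQ
  have hb := ZMod.val_lt b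
  have hbv : ((b.val : ℕ) : ZMod l) = b := ZMod.natCast_zmod_val b
  have hb0 : b = 0 ↔ b.val = 0 := (ZMod.val_eq_zero b).symm
  have hs : CC s (b.val + 1) = CC s b.val * s.2 (0, b) := by
    have : CC s (b.val + 1) = CC s b.val * s.2 (0, ((b.val : ℕ) : ZMod l)) := hp_succ _ _
    rw [this, hbv]
  set q : SU N := if b.val = 0 then 1 else Q0 with hq
  have hqq : q⁻¹ * Q0 = if b = 0 then Q0 else 1 := by
    rw [hq]
    by_cases h0 : b = 0
    · rw [if_pos (hb0.1 h0), if_pos h0]; simp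
    · rw [if_neg (fun h => h0 (hb0.2 h)), if_neg h0]; simp
  rw [← hqq]
  by_cases hlt : b.val + 1 < l
  · have hv : (b + 1).val = b.val + 1 := by
      have h1 : ((b.val + 1 : ℕ) : ZMod l) = b + 1 := by push_cast; rw [hbv]
      rw [← h1, ZMod.val_cast_of_lt hlt]
    rw [hv]
    have e : (gc s g0 Q0 b.val)⁻¹ * s.2 (0, b) * gc s g0 Q0 (b.val + 1) = q⁻¹ * Q0 := by
      unfold gc
      rw [if_neg (Nat.succ_ne_zero _), hs, ← hq]
      group
    rw [e, dd_self]
    exact hθ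
  · have hle : b.val + 1 = l := by omega
    have hv : (b + 1).val = 0 := by
      rw [ZMod.val_eq_zero]
      have h1 : ((b.val + 1 : ℕ) : ZMod l) = b + 1 := by push_cast; rw [hbv]
      rw [← h1, hle, ZMod.natCast_self]
    rw [hv]
    rw [hle] at hs
    have e : (gc s g0 Q0 b.val)⁻¹ * s.2 (0, b) * gc s g0 Q0 0 = q⁻¹ * (g0⁻¹ * CC s l * g0) := by
      unfold gc
      rw [hs, ← hq, if_pos rfl]
      have : CC s 0 = 1 := rfl
      rw [this]
      group
    rw [e, dd_mul_left]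
    exact hQ

include hrel in
/-- FR from A1, for one fibre -/
theorem frames {s : FC N l} {ε θ : ℝ} {g0 : SU N} (hε : 0 ≤ ε) (hθ : 0 ≤ θ)
    (h : ∀ y, dd (tz hζ y * (s.1 y * s.2 (y + (1, 0)))) (s.2 y * s.1 (y + (0, 1))) ≤ ε)
    (hP : dd (g0⁻¹ * PL s * g0) P0 ≤ θ) (hQ : dd (g0⁻¹ * QL s * g0) Q0 ≤ θ) (y : Fib l) :
    dd ((gg s g0 P0 Q0 y)⁻¹ * s.1 y * gg s g0 P0 Q0 (y + (1, 0))) ((vacF (l := l) P0 Q0).1 y) ≤
        l * (l * ε) + θ ∧
      dd ((gg s g0 P0 Q0 y)⁻¹ * s.2 y * gg s g0 P0 Q0 (y + (0, 1))) ((vacF (l := l) P0 Q0).2 y) ≤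
        l * (l * ε) + θ := by
  obtain ⟨a, b⟩ := y
  have hl1 : (1 : ℝ) ≤ l := by exact_mod_cast NeZero.pos l
  have ha := ZMod.val_lt a
  have hav : ((a.val : ℕ) : ZMod l) = a := ZMod.natCast_zmod_val a
  have ha0 : a = 0 ↔ a.val = 0 := (ZMod.val_eq_zero a).symm
  have hbv : ((b.val : ℕ) : ZMod l) = b := ZMod.natCast_zmod_val b
  have hb := ZMod.val_lt b
  have e1 : (a, b) + ((1, 0) : Fib l) = (a + 1, b) := by simp
  have e2 : (a, b) + ((0, 1) : Fib l) = (a, b + 1) := by simp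
  rw [e1, e2]
  have v1 : (vacF (l := l) P0 Q0).1 (a, b) = if a = 0 then P0 else 1 := rfl
  have v2 : (vacF (l := l) P0 Q0).2 (a, b) = if b = 0 then Q0 else 1 := rfl
  rw [v1, v2]
  set p : SU N := if a = 0 then 1 else P0 with hp'
  have hpp : p⁻¹ * P0 = if a = 0 then P0 else 1 := by
    rw [hp']; split_ifs <;> simp
  have hg : gg s g0 P0 Q0 (a, b) = (RR s b a.val)⁻¹ * gc s g0 Q0 b.val * p := rfl
  have hs : RR s b (a.val + 1) = RR s b a.val * s.1 (a, b) := by
    have : RR s b (a.val + 1) = RR s b a.val * s.1 (((a.val : ℕ) : ZMod l), b) := hp_succ _ _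
    rw [this, hav]
  constructor
  · rw [← hpp]
    by_cases hlt : a.val + 1 < l
    · have hv1 : ((a.val + 1 : ℕ) : ZMod l) = a + 1 := by push_cast; rw [hav]
      have hv : (a + 1).val = a.val + 1 := by
        rw [← hv1, ZMod.val_cast_of_lt hlt]
      have hne : ¬ (a + 1 = 0) := by
        rw [← ZMod.val_eq_zero, hv]; omega
      have e : (gg s g0 P0 Q0 (a, b))⁻¹ * s.1 (a, b) * gg s g0 P0 Q0 (a + 1, b) = p⁻¹ * P0 := by
        have hg1 : gg s g0 P0 Q0 (a + 1, b) = (RR s b (a.val + 1))⁻¹ * gc s g0 Q0 b.val * P0 := by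
          unfold gg
          simp only [hv, if_neg hne]
        rw [hg, hg1, hs]
        group
      rw [e, dd_self]
      positivity
    · have hle : a.val + 1 = l := by omega
      have hv1 : a + 1 = 0 := by
        have h1 : ((a.val + 1 : ℕ) : ZMod l) = a + 1 := by push_cast; rw [hav]
        rw [← h1, hle, ZMod.natCast_self]
      rw [hle] at hs
      have e : (gg s g0 P0 Q0 (a, b))⁻¹ * s.1 (a, b) * gg s g0 P0 Q0 (a + 1, b) =
          p⁻¹ * ((gc s g0 Q0 b.val)⁻¹ * RR s b l * gc s g0 Q0 b.val) := by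
        have hg1 : gg s g0 P0 Q0 (a + 1, b) = gc s g0 Q0 b.val := by
          unfold gg
          simp only [hv1, ZMod.val_zero, if_true]
          have : RR s b 0 = 1 := rfl
          rw [this, inv_one, one_mul, mul_one]
        rw [hg, hg1, hs]
        group
      rw [e, dd_mul_left]
      have h1 := row_hol hζ hrel h hP hb
      rw [hbv] at h1
      have h2 : (b.val : ℝ) * (l * ε) ≤ l * (l * ε) :=
        mul_le_mul_of_nonneg_right (by exact_mod_cast hb.le) (by positivity)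
      linarith
  · have h1 := row_move' hζ h b a.val
    rw [hav] at h1
    have hZ := ZR_val hζ (j := a.val) b ha.le
    have hz : ∀ g, ZR hζ b a.val * g = g * ZR hζ b a.val := ZR_comm hζ b a.val
    set Z := ZR hζ b a.val with hZd
    set v : SU N := if b = 0 then Q0 else 1 with hv
    have h2 := col_link (s := s) hθ hQ b
    rw [← hv] at h2
    set T := (gc s g0 Q0 b.val)⁻¹ * (RR s b a.val * s.2 (a, b)) *
      ((RR s (b + 1) a.val)⁻¹ * gc s g0 Q0 (b + 1).val) with hT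
    have e3 : Z * T = (gc s g0 Q0 b.val)⁻¹ * (Z * (RR s b a.val * s.2 (a, b))) *
      ((RR s (b + 1) a.val)⁻¹ * gc s g0 Q0 (b + 1).val) := by
      rw [hT, ← mul_assoc Z, ← mul_assoc Z, hz, mul_assoc _ Z]
    have e4 : (gc s g0 Q0 b.val)⁻¹ * (s.2 (0, b) * RR s (b + 1) a.val) *
      ((RR s (b + 1) a.val)⁻¹ * gc s g0 Q0 (b + 1).val) =
        (gc s g0 Q0 b.val)⁻¹ * s.2 (0, b) * gc s g0 Q0 (b + 1).val := by group
    have h3 : dd (Z * T) ((gc s g0 Q0 b.val)⁻¹ * s.2 (0, b) * gc s g0 Q0 (b + 1).val) ≤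
        a.val * ε := by
      rw [e3, ← e4, dd_mul_right, dd_mul_left]
      exact h1
    have h4 := dd_triangle (Z * T) ((gc s g0 Q0 b.val)⁻¹ * s.2 (0, b) * gc s g0 Q0 (b + 1).val) v
    have e5 : Z * (p * v * p⁻¹) = v := by
      rw [hZ, hp', hv]
      by_cases hb0 : b = 0
      · by_cases ha1 : a = 0
        · have : a.val = 0 := ha0.1 ha1
          simp [hb0, ha1]
        · have hpos : 0 < a.val := Nat.pos_of_ne_zero fun h => ha1 (ha0.2 h)
          rw [if_pos ⟨hb0, hpos⟩, if_neg ha1, if_pos hb0, ← mul_assoc, rel_cz hζ hrel]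
          group
      · rw [if_neg (fun h => hb0 h.1), if_neg hb0]
        group
    have h5 : dd ((gg s g0 P0 Q0 (a, b))⁻¹ * s.2 (a, b) * gg s g0 P0 Q0 (a, b + 1)) v =
        dd (Z * T) v := by
      have hg1 : gg s g0 P0 Q0 (a, b + 1) = (RR s (b + 1) a.val)⁻¹ * gc s g0 Q0 (b + 1).val * p :=
        rfl
      have e6 : (gg s g0 P0 Q0 (a, b))⁻¹ * s.2 (a, b) * gg s g0 P0 Q0 (a, b + 1) =
          p⁻¹ * T * p := by
        rw [hg, hg1, hT]; group
      have e7 : dd (p⁻¹ * T * p) v = dd T (p * v * p⁻¹) := by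
        have h6 := dd_mul_left (p⁻¹ * T * p) v p
        have h7 := dd_mul_right (p * (p⁻¹ * T * p)) (p * v) p⁻¹
        rw [← h6, ← h7]
        congr 1
        group
      rw [e6, e7, ← dd_mul_left T (p * v * p⁻¹) Z, e5]
    rw [h5]
    have h8 : (a.val : ℝ) * ε ≤ l * (l * ε) := by
      have h9 : (a.val : ℝ) * ε ≤ l * ε := mul_le_mul_of_nonneg_right (by exact_mod_cast ha.le) hε
      have h10 : (l : ℝ) * ε ≤ l * (l * ε) := by
        have : 0 ≤ (l : ℝ) * ε := by positivity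
        nlinarith
      linarith
    linarith

/-- FR from A1 -/
theorem tFR (hA1 : StA1) : StFR := by
  intro N k l _ _ hζ P0 Q0 hstd
  obtain ⟨C, hC, hA⟩ := hA1 N k hζ P0 Q0 hstd
  refine ⟨2 * ((l : ℝ) * l + C * (l * l)), by
    have hl : (0 : ℝ) < l := by exact_mod_cast NeZero.pos l
    positivity, fun s => ?_⟩
  obtain ⟨g0, hg1, hg2⟩ := hA (PL s) (QL s)
  set ε := Real.sqrt (2 * VL k s) with hε
  have hε0 : 0 ≤ ε := Real.sqrt_nonneg _
  have h : ∀ y, dd (tz hζ y * (s.1 y * s.2 (y + (1, 0)))) (s.2 y * s.1 (y + (0, 1))) ≤ ε :=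
    VL_le hζ s
  have hflux : dd (QL s * PL s) (cz hζ 1 * (PL s * QL s)) ≤ l * (l * ε) := by
    have h1 := col_move' hζ h l
    rw [ZC_pos hζ (NeZero.pos l) le_rfl, ZMod.natCast_self, dd_comm] at h1
    exact h1
  have hθ : 0 ≤ C * (l * (l * ε)) := by positivity
  have h1 : dd (g0⁻¹ * PL s * g0) P0 ≤ C * (l * (l * ε)) :=
    hg1.trans (mul_le_mul_of_nonneg_left hflux hC.le)
  have h2 : dd (g0⁻¹ * QL s * g0) Q0 ≤ C * (l * (l * ε)) :=
    hg2.trans (mul_le_mul_of_nonneg_left hflux hC.le)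
  refine ⟨gg s g0 P0 Q0, fun y => ?_⟩
  obtain ⟨h3, h4⟩ := frames hζ hstd.rel hε0 hθ h h1 h2 y
  have h5 : ε ≤ 2 * Real.sqrt (VL k s) := by
    rw [hε, Real.sqrt_mul (by norm_num)]
    have : Real.sqrt 2 ≤ 2 := by
      rw [Real.sqrt_le_left (by norm_num)]; norm_num
    exact mul_le_mul_of_nonneg_right this (Real.sqrt_nonneg _)
  have h6 : (l : ℝ) * (l * ε) + C * (l * (l * ε)) ≤
      2 * ((l : ℝ) * l + C * (l * l)) * Real.sqrt (VL k s) := by
    have h7 : 0 ≤ (l : ℝ) * l + C * (l * l) := by positivity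
    calc (l : ℝ) * (l * ε) + C * (l * (l * ε)) = ((l : ℝ) * l + C * (l * l)) * ε := by ring
      _ ≤ ((l : ℝ) * l + C * (l * l)) * (2 * Real.sqrt (VL k s)) :=
        mul_le_mul_of_nonneg_left h5 h7
      _ = _ := by ring
  exact ⟨h3.trans h6, h4.trans h6⟩

end

end Run7.h182.VS
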